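import Pool.Agent.W751.CV.Stm
import Pool.Agent.W751.CD.Fib
import Pool.Agent.W751.CD.Dyn

/-!
# Large critical values imply hyperbolicity
-/

set_option autoImplicit false

open Polynomial Filter Topology MeasureTheory

namespace Pool.Agent.W462.CV

open Pool.Agent.W751.CD Pool.Agent.W751.CV

lemma eval_mul_C (T : ℂ[X]) (α w : ℂ) : (C α * T).eval w = α * T.eval w := by
  rw [eval_mul, eval_C]

/-- uniform escape for large degrees -/
lemma escape (p : ℂ) (ρ A : ℝ) (hρ : 0 < ρ) (hA : 1 ≤ A) : ∃ N₀ : ℕ, ∀ N : ℕ, N₀ ≤ N →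
    ∀ z : Fin N → ℂ, (∀ i, ‖z i - p‖ ≤ ρ) → ∀ α : ℂ, 1 / A ≤ ‖α‖ →
      ∀ w : ℂ, ‖p‖ + ρ + 3 ≤ ‖w‖ → 2 * ‖w‖ ≤ ‖(C α * P z).eval w‖ := by
  have hp := norm_nonneg p
  have hR0 : 0 < ‖p‖ + ρ + 3 := by linarith
  have hA0 : 0 < A := by linarith
  obtain ⟨n, hn⟩ := pow_unbounded_of_one_lt (2 * A * (‖p‖ + ρ + 3)) (by norm_num : (1 : ℝ) < 3)
  refine ⟨n + 1, ?_⟩
  intro N hN z hz α hα w hw
  have h3N : 2 * A * (‖p‖ + ρ + 3) ≤ 3 ^ N :=
    hn.le.trans (pow_le_pow_right₀ (by norm_num) (by omega))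
  set d : ℝ := ‖w‖ - (‖p‖ + ρ) with hd
  have hd3 : 3 ≤ d := by rw [hd]; linarith
  have h1 : ∀ i, d ≤ ‖w - z i‖ := by
    intro i
    have e1 : ‖z i‖ ≤ ‖p‖ + ρ := by
      have := norm_le_norm_add_norm_sub' (z i) p
      linarith [hz i]
    have e2 : ‖w‖ - ‖z i‖ ≤ ‖w - z i‖ := norm_sub_norm_le w (z i)
    rw [hd]
    linarith
  have h2 : d ^ N ≤ ‖(P z).eval w‖ := by
    rw [eval_P, norm_prod]
    calc d ^ N = ∏ _i : Fin N, d := by
          rw [Finset.prod_const, Finset.card_univ, Fintype.card_fin]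
      _ ≤ ∏ i, ‖w - z i‖ := Finset.prod_le_prod (fun i _ => by linarith) fun i _ => h1 i
  obtain ⟨m, rfl⟩ : ∃ m, N = m + 1 := ⟨N - 1, by omega⟩
  have h3 : (3 : ℝ) ^ m * d ≤ d ^ (m + 1) := by
    rw [pow_succ]
    exact mul_le_mul_of_nonneg_right (pow_le_pow_left₀ (by norm_num) hd3 m) (by linarith)
  have h4 : 3 * ‖w‖ ≤ (‖p‖ + ρ + 3) * d := by
    rw [hd]
    nlinarith [mul_nonneg (by linarith : (0 : ℝ) ≤ ‖p‖ + ρ) (by linarith : 0 ≤ ‖w‖ - (‖p‖ + ρ + 3))]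
  rw [eval_mul_C, norm_mul]
  have h5 : (1 / A) * ((3 : ℝ) ^ m * d) ≤ ‖α‖ * ‖(P z).eval w‖ :=
    mul_le_mul hα (h3.trans h2) (by positivity) (norm_nonneg _)
  refine le_trans ?_ h5
  rw [one_div, inv_mul_eq_div, le_div_iff₀ hA0]
  have h6 : 2 * A * (‖p‖ + ρ + 3) * (3 * ‖w‖) ≤ 3 ^ (m + 1) * ((‖p‖ + ρ + 3) * d) :=
    mul_le_mul h3N h4 (by positivity) (by positivity)
  have h7 : 3 * (‖p‖ + ρ + 3) * (2 * ‖w‖ * A) ≤ 3 * (‖p‖ + ρ + 3) * (3 ^ m * d) := by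
    have e1 : 2 * A * (‖p‖ + ρ + 3) * (3 * ‖w‖) = 3 * (‖p‖ + ρ + 3) * (2 * ‖w‖ * A) := by ring
    have e2 : (3 : ℝ) ^ (m + 1) * ((‖p‖ + ρ + 3) * d) = 3 * (‖p‖ + ρ + 3) * (3 ^ m * d) := by
      rw [pow_succ]; ring
    rw [← e1, ← e2]
    exact h6
  exact le_of_mul_le_mul_left h7 (by positivity)

lemma crit_of {T : ℂ[X]} {α c : ℂ} (hα : α ≠ 0) (hc : (derivative (C α * T)).eval c = 0) :
    (derivative T).eval c = 0 := by
  rw [derivative_C_mul, eval_mul, eval_C] at hc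
  exact (mul_eq_zero.1 hc).resolve_left hα

lemma large_of {A R : ℝ} (hA : 1 ≤ A) {α v : ℂ} (hα : 1 / A ≤ ‖α‖) (h : A * R < ‖v‖) :
    R ≤ ‖α * v‖ := by
  have hA0 : 0 < A := by linarith
  rw [norm_mul]
  calc R = (1 / A) * (A * R) := by field_simp
    _ ≤ (1 / A) * ‖v‖ := mul_le_mul_of_nonneg_left h.le (by positivity)
    _ ≤ ‖α‖ * ‖v‖ := mul_le_mul_of_nonneg_right hα (norm_nonneg _)

theorem ha : S_HA := by
  intro p ρ A hρ hA
  obtain ⟨N₀, hN₀⟩ := escape p ρ A hρ hA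
  refine ⟨N₀, ?_⟩
  intro N hN z hz α hα hcr c hc
  have hA0 : 0 < A := by linarith
  have hα0 : α ≠ 0 := by
    rintro rfl
    rw [norm_zero] at hα
    have : 0 < 1 / A := by positivity
    linarith
  left
  have hesc := hN₀ N hN z hz α hα
  apply Esc.shift
  refine esc_of_large (by have := norm_nonneg p; linarith) hesc ?_
  rw [eval_mul_C]
  exact large_of hA hα (hcr c (crit_of hα0 hc))

theorem hc : S_HC := by
  intro p ρ A hρ hA
  obtain ⟨N₀, hN₀⟩ := escape p ρ A hρ hA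
  refine ⟨N₀, ?_⟩
  intro N hN z hz α s hα hcr hs c hc
  have hA0 : 0 < A := by linarith
  have hα0 : α ≠ 0 := by
    rintro rfl
    rw [norm_zero] at hα
    have : 0 < 1 / A := by positivity
    linarith
  left
  have hesc := hN₀ N hN z hz α hα
  apply Esc.shift
  apply Esc.shift
  refine esc_of_large (by have := norm_nonneg p; linarith) hesc ?_
  rw [eval_mul_C]
  refine large_of hA hα (hs _ ?_)
  rw [eval_mul_C]
  exact hcr c (crit_of hα0 hc)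

end Pool.Agent.W462.CV
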